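import Mathlib

/-!
Block CF-1 (project CF of helper2, MP_b8862a_ag): three lemmas on representations of `sl2`.

For `h u = a u`: `f e^{i+1} u = e^i (f e u) - i (a + i + 1) e^i u` (`down54`), and `e` is nilpotent on `u`
(`nilp54`). So an eigenvalue of `f e` at `u` is `i (a + i + 1)` with `e^i u` the last nonzero vector
(`val54`). Applied to the flipped triple `(-h, f, e)` and the last nonzero vector this gives the
integrality, and the eigenvalues of `f e` are real and nonnegative; `f e u = 0` forces `e u = 0`.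
The trace is the sum of the eigenvalues; if it is zero, `f e` is nilpotent on `U`, and `f e f e x = 0`
implies `f e x = 0` (`semi54`), so `f e = 0` on `U`.
-/

open Module

namespace CF

section sl

variable {M : Type*} [AddCommGroup M] [Module ℂ M] [FiniteDimensional ℂ M]

omit [FiniteDimensional ℂ M] in
/-- `e` raises the weights by two. -/
private lemma raise54 {h e : Module.End ℂ M} (he : h * e - e * h = (2 : ℂ) • e) {u : M} {μ : ℂ}
    (hμ : h u = μ • u) (j : ℕ) : h ((e ^ j) u) = (μ + 2 * j) • (e ^ j) u := by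
  induction j with
  | zero => simp [hμ]
  | succ j ih =>
    have h1 : h (e ((e ^ j) u)) = e (h ((e ^ j) u)) + (2 : ℂ) • e ((e ^ j) u) := by
      have := congrArg (fun T : Module.End ℂ M => T ((e ^ j) u)) he
      simp only [LinearMap.sub_apply, Module.End.mul_apply, LinearMap.smul_apply] at this
      rw [← this]
      abel
    rw [pow_succ', Module.End.mul_apply, h1, ih, map_smul, ← add_smul]
    congr 1
    push_cast
    ring

/-- `e` is nilpotent. -/
private lemma nilp54 {h e : Module.End ℂ M} (he : h * e - e * h = (2 : ℂ) • e) {u : M} {μ : ℂ}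
    (hμ : h u = μ • u) : ∃ j : ℕ, (e ^ j) u = 0 := by
  by_contra hcon
  push Not at hcon
  have h1 : ∀ j : ℕ, (μ + 2 * j) ∈ {ν | h.HasEigenvalue ν} := by
    intro j
    exact Module.End.hasEigenvalue_of_hasEigenvector
      ⟨Module.End.mem_eigenspace_iff.mpr (raise54 he hμ j), hcon j⟩
  have h2 : Function.Injective (fun j : ℕ => μ + 2 * (j : ℂ)) := by
    intro i j hij
    have h3 : (2 : ℂ) * i = 2 * j := add_left_cancel hij
    have h4 := mul_left_cancel₀ two_ne_zero h3
    exact_mod_cast h4
  exact Set.infinite_of_injective_forall_mem h2 h1 h.finite_hasEigenvalue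

/-- There is a last nonzero vector. -/
private lemma last54 {h e : Module.End ℂ M} (he : h * e - e * h = (2 : ℂ) • e) {u : M} (hu : u ≠ 0)
    {μ : ℂ} (hμ : h u = μ • u) : ∃ i : ℕ, (e ^ i) u ≠ 0 ∧ (e ^ (i + 1)) u = 0 := by
  classical
  have hex := nilp54 he hμ
  have h0 : Nat.find hex ≠ 0 := by
    intro h0
    have := Nat.find_spec hex
    rw [h0, pow_zero, Module.End.one_apply] at this
    exact hu this
  obtain ⟨i, hi⟩ := Nat.exists_eq_succ_of_ne_zero h0
  refine ⟨i, Nat.find_min hex (by omega), ?_⟩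
  have := Nat.find_spec hex
  rwa [hi] at this

omit [FiniteDimensional ℂ M] in
private lemma down54 {h e f : Module.End ℂ M} (he : h * e - e * h = (2 : ℂ) • e)
    (hh : e * f - f * e = h) {u : M} {a : ℂ} (hu : h u = a • u) (i : ℕ) :
    f ((e ^ (i + 1)) u) = (e ^ i) (f (e u)) - ((i : ℂ) * (a + i + 1)) • (e ^ i) u := by
  induction i with
  | zero => simp
  | succ i ih =>
    have h1 : ∀ v, f (e v) = e (f v) - h v := by
      intro v
      have := congrArg (fun T : Module.End ℂ M => T v) hh
      simp only [LinearMap.sub_apply, Module.End.mul_apply] at this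
      rw [← this]
      abel
    have h2 : f ((e ^ (i + 1 + 1)) u) = e (f ((e ^ (i + 1)) u)) - h ((e ^ (i + 1)) u) := by
      rw [pow_succ' e (i + 1), Module.End.mul_apply, h1]
    rw [h2, ih, raise54 he hu, map_sub, map_smul, ← Module.End.mul_apply e, ← pow_succ',
      ← Module.End.mul_apply e, ← pow_succ', sub_sub, ← add_smul]
    congr 2
    push_cast
    ring

/-- The eigenvalues of `f e` on a weight vector. -/
private lemma val54 {h e f : Module.End ℂ M} (he : h * e - e * h = (2 : ℂ) • e)
    (hh : e * f - f * e = h) {u : M} (hu : u ≠ 0) {a c : ℂ} (ha : h u = a • u)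
    (hU : f (e u) = c • u) : ∃ i : ℕ, c = i * (a + i + 1) ∧ (e ^ i) u ≠ 0 ∧ (e ^ (i + 1)) u = 0 := by
  obtain ⟨i, hi, hi1⟩ := last54 he hu ha
  refine ⟨i, ?_, hi, hi1⟩
  have h1 := down54 he hh ha i
  rw [hi1, map_zero, hU, map_smul, ← sub_smul] at h1
  rcases smul_eq_zero.mp h1.symm with h2 | h2
  · exact sub_eq_zero.mp h2
  · exact absurd h2 hi

omit [FiniteDimensional ℂ M] in
private lemma flip54 {h e f : Module.End ℂ M} (hf : h * f - f * h = -((2 : ℂ) • f))
    (hh : e * f - f * e = h) :
    (-h) * f - f * (-h) = (2 : ℂ) • f ∧ f * e - e * f = -h := by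
  constructor
  · rw [neg_mul, mul_neg, ← neg_inj, ← hf]
    abel
  · rw [← hh]
    abel

/-- CF-1a: the weights are integers. -/
theorem int_weight {h e f : Module.End ℂ M} (he : h * e - e * h = (2 : ℂ) • e) (hf : h * f - f * h = -((2 : ℂ) • f))
    (hh : e * f - f * e = h) {u : M} (hu : u ≠ 0) {μ : ℂ} (hμ : h u = μ • u) : ∃ a : ℤ, μ = a := by
  obtain ⟨i, hi, hi1⟩ := last54 he hu hμ
  obtain ⟨k1, k2⟩ := flip54 hf hh
  set w := (e ^ i) u with hw
  have hhw : h w = (μ + 2 * i) • w := raise54 he hμ i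
  have hew : e w = 0 := by
    rw [hw, ← Module.End.mul_apply, ← pow_succ']
    exact hi1
  have h1 : e (f w) = (μ + 2 * i) • w := by
    have := congrArg (fun T : Module.End ℂ M => T w) hh
    simp only [LinearMap.sub_apply, Module.End.mul_apply, hew, map_zero, sub_zero] at this
    rw [this, hhw]
  have h2 : (-h) w = (-(μ + 2 * i)) • w := by
    rw [LinearMap.neg_apply, hhw, neg_smul]
  obtain ⟨m, hm, -, -⟩ := val54 k1 k2 hi h2 h1
  -- the weight of `w` is `m`
  have h3 : (μ + 2 * i - m) * (m + 1) = 0 := by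
    linear_combination hm
  have h4 : (m : ℂ) + 1 ≠ 0 := by exact_mod_cast Nat.succ_ne_zero m
  refine ⟨m - 2 * i, ?_⟩
  have h5 := (mul_eq_zero.mp h3).resolve_right h4
  push_cast
  linear_combination h5

/-- The case of a natural weight. -/
private lemma eig_nat54 {h e f : Module.End ℂ M} (he : h * e - e * h = (2 : ℂ) • e)
    (hh : e * f - f * e = h) {u : M} (hu : u ≠ 0) {a : ℕ} {c : ℂ} (ha : h u = (a : ℂ) • u)
    (hU : f (e u) = c • u) : ∃ r : ℝ, 0 ≤ r ∧ c = (r : ℂ) := by
  obtain ⟨i, hi, -, -⟩ := val54 he hh hu ha hU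
  refine ⟨(i : ℝ) * (a + i + 1), by positivity, ?_⟩
  rw [hi]
  push_cast
  ring

/-- CF-1c: eigenvalue version. -/
theorem eig_fe {h e f : Module.End ℂ M} (he : h * e - e * h = (2 : ℂ) • e) (hf : h * f - f * h = -((2 : ℂ) • f))
    (hh : e * f - f * e = h) {u : M} (hu : u ≠ 0) {a c : ℂ} (ha : h u = a • u)
    (hU : f (e u) = c • u) : ∃ r : ℝ, 0 ≤ r ∧ c = (r : ℂ) ∧ (r = 0 → e u = 0) := by
  obtain ⟨a, rfl⟩ := int_weight he hf hh hu ha
  obtain ⟨k1, k2⟩ := flip54 hf hh
  have h1 : ∀ v, e (f v) = f (e v) + h v := by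
    intro v
    have := congrArg (fun T : Module.End ℂ M => T v) hh
    simp only [LinearMap.sub_apply, Module.End.mul_apply] at this
    rw [← this]
    abel
  rcases le_or_gt 0 a with h0 | h0
  · obtain ⟨a, rfl⟩ := Int.eq_ofNat_of_zero_le h0
    rw [Int.cast_natCast] at ha
    obtain ⟨r, hr, hc⟩ := eig_nat54 he hh hu ha hU
    refine ⟨r, hr, hc, fun hr0 => ?_⟩
    by_contra hne
    have h2 : h (e u) = ((a + 2 : ℕ) : ℂ) • e u := by
      have := raise54 he ha 1
      rw [pow_one] at this
      rw [this]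
      congr 1
      push_cast
      ring
    have h3 : f (e (e u)) = (-((a + 2 : ℕ) : ℂ)) • e u := by
      have h4 := h1 (e u)
      rw [hU, hc, hr0, Complex.ofReal_zero, zero_smul, map_zero, h2] at h4
      rw [neg_smul, eq_neg_iff_add_eq_zero]
      exact h4.symm
    obtain ⟨s, hs, hs1⟩ := eig_nat54 he hh hne h2 h3
    have h5 : (-((a + 2 : ℕ) : ℝ)) = s := by exact_mod_cast hs1
    have h6 : (0 : ℝ) < ((a + 2 : ℕ) : ℝ) := by positivity
    linarith
  · obtain ⟨d, hd⟩ := Int.eq_ofNat_of_zero_le (show 0 ≤ -a by omega)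
    have h2 : (-h) u = (d : ℂ) • u := by
      rw [LinearMap.neg_apply, ha, ← neg_smul]
      congr 1
      exact_mod_cast hd
    have h3 : e (f u) = (c + a) • u := by
      rw [h1, hU, ha, add_smul]
    obtain ⟨r, hr, hc⟩ := eig_nat54 k1 k2 hu h2 h3
    refine ⟨r - a, ?_, ?_, ?_⟩
    · have : (a : ℝ) < 0 := by exact_mod_cast h0
      linarith
    · push_cast
      rw [← hc]
      ring
    · intro hr0
      have : (a : ℝ) < 0 := by exact_mod_cast h0
      linarith

/-- `f e` is semisimple at the eigenvalue zero. -/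
private lemma semi54 {h e f : Module.End ℂ M} (he : h * e - e * h = (2 : ℂ) • e)
    (hf : h * f - f * h = -((2 : ℂ) • f)) (hh : e * f - f * e = h) {x : M} {a : ℂ}
    (ha : h x = a • x) (h2 : f (e (f (e x))) = 0) : f (e x) = 0 := by
  by_contra hne
  obtain ⟨k1, k2⟩ := flip54 hf hh
  have e1 : h (e x) = (a + 2) • e x := by
    have := raise54 he ha 1
    rw [pow_one] at this
    rw [this]
    congr 1
    push_cast
    ring
  have e2 : h (f (e x)) = a • f (e x) := by
    have := raise54 (h := -h) (e := f) k1 (u := e x) (μ := -(a + 2))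
      (by rw [LinearMap.neg_apply, e1, neg_smul]) 1
    rw [pow_one, LinearMap.neg_apply, neg_eq_iff_eq_neg, ← neg_smul] at this
    rw [this]
    congr 1
    push_cast
    ring
  have hev : e (f (e x)) = 0 := by
    obtain ⟨r, -, hr, hr0⟩ := eig_fe he hf hh hne e2 (c := 0) (by rw [h2, zero_smul])
    exact hr0 (by exact_mod_cast hr.symm)
  have hw : e x ≠ 0 := by
    intro h0
    apply hne
    rw [h0, map_zero]
  have hf' : (-h) * e - e * (-h) = -((2 : ℂ) • e) := by
    rw [neg_mul, mul_neg, ← he]
    abel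
  obtain ⟨r, -, hr, hr0⟩ := eig_fe (h := -h) (e := f) (f := e) k1 hf' k2 hw
    (a := -(a + 2)) (c := 0) (by rw [LinearMap.neg_apply, e1, neg_smul])
    (by rw [hev, zero_smul])
  exact hne (hr0 (by exact_mod_cast hr.symm))

/-- CF-1b: trace of `f e` on (a stable subspace of) a weight space. -/
theorem trace_fe {h e f : Module.End ℂ M} (he : h * e - e * h = (2 : ℂ) • e) (hf : h * f - f * h = -((2 : ℂ) • f))
    (hh : e * f - f * e = h) (U : Submodule ℂ M) {a : ℤ} (ha : ∀ u ∈ U, h u = (a : ℂ) • u)
    (hU : ∀ u ∈ U, (f * e) u ∈ U) :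
    ∃ r : ℝ, 0 ≤ r ∧ LinearMap.trace ℂ U ((f * e).restrict hU) = (r : ℂ) ∧ (r = 0 → ∀ u ∈ U, e u = 0) := by
  set T : U →ₗ[ℂ] U := (f * e).restrict hU with hT
  have hTv : ∀ u : U, ((T u : U) : M) = f (e u) := fun u => rfl
  have htr : LinearMap.trace ℂ U T = T.charpoly.roots.sum := by
    set b := Module.finBasis ℂ U
    rw [LinearMap.trace_eq_matrix_trace ℂ b, Matrix.trace_eq_sum_roots_charpoly,
      LinearMap.charpoly_toMatrix]
  -- the eigenvalues
  have hroot : ∀ c ∈ T.charpoly.roots, ∃ r : ℝ, 0 ≤ r ∧ c = (r : ℂ) := by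
    intro c hc
    have h1 : Module.End.HasEigenvalue T c := by
      rw [Module.End.hasEigenvalue_iff_isRoot_charpoly]
      exact (Polynomial.mem_roots'.mp hc).2
    obtain ⟨v, hv⟩ := h1.exists_hasEigenvector
    have h2 := hv.apply_eq_smul
    have h3 : f (e (v : M)) = c • (v : M) := by
      rw [← hTv, h2]
      rfl
    have h4 : (v : M) ≠ 0 := fun h0 => hv.2 (Subtype.ext h0)
    obtain ⟨r, hr, hcr, -⟩ := eig_fe he hf hh h4 (ha v v.2) h3
    exact ⟨r, hr, hcr⟩
  have hre : ∀ c ∈ T.charpoly.roots, 0 ≤ c.re ∧ c = (c.re : ℂ) := by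
    intro c hc
    obtain ⟨r, hr, rfl⟩ := hroot c hc
    exact ⟨by simpa using hr, by simp⟩
  refine ⟨(T.charpoly.roots.map Complex.re).sum, ?_, ?_, ?_⟩
  · apply Multiset.sum_nonneg
    intro x hx
    obtain ⟨c, hc, rfl⟩ := Multiset.mem_map.mp hx
    exact (hre c hc).1
  · rw [htr]
    have h1 : T.charpoly.roots = T.charpoly.roots.map (fun c => (c.re : ℂ)) := by
      conv_lhs => rw [← Multiset.map_id T.charpoly.roots]
      apply Multiset.map_congr rfl
      intro c hc
      exact (hre c hc).2
    conv_lhs => rw [h1]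
    have h2 := map_multiset_sum Complex.ofRealHom (T.charpoly.roots.map Complex.re)
    rw [Multiset.map_map] at h2
    exact h2.symm
  · intro h0
    have hz : ∀ c ∈ T.charpoly.roots, c = 0 := by
      intro c hc
      have h1 : c.re ≤ (T.charpoly.roots.map Complex.re).sum := by
        apply Multiset.single_le_sum _ _ (Multiset.mem_map_of_mem _ hc)
        intro x hx
        obtain ⟨c, hc, rfl⟩ := Multiset.mem_map.mp hx
        exact (hre c hc).1
      have h2 : c.re = 0 := le_antisymm (h1.trans h0.le) (hre c hc).1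
      rw [(hre c hc).2, h2, Complex.ofReal_zero]
    have hch : T.charpoly = Polynomial.X ^ (Multiset.card T.charpoly.roots) := by
      have h1 := (IsAlgClosed.splits T.charpoly).eq_prod_roots_of_monic T.charpoly_monic
      conv_lhs => rw [h1]
      rw [Multiset.eq_replicate_card.mpr hz]
      simp
    have hnil : T ^ (Multiset.card T.charpoly.roots) = 0 := by
      have h1 := LinearMap.aeval_self_charpoly T
      rw [hch] at h1
      simpa using h1
    have hsemi : ∀ x : U, T (T x) = 0 → T x = 0 := by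
      intro x hx
      apply Subtype.ext
      rw [hTv]
      apply semi54 he hf hh (ha x x.2)
      have := congrArg Subtype.val hx
      rw [hTv, hTv] at this
      exact this
    have hall : ∀ (n : ℕ) (x : U), (T ^ n) x = 0 → T x = 0 := by
      intro n
      induction n with
      | zero =>
        intro x hx
        rw [pow_zero, Module.End.one_apply] at hx
        rw [hx, map_zero]
      | succ n ih =>
        intro x hx
        rcases n with _ | n
        · rwa [zero_add, pow_one] at hx
        · apply ih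
          have h1 : T (T ((T ^ n) x)) = 0 := by
            rw [pow_succ', pow_succ'] at hx
            exact hx
          rw [pow_succ']
          exact hsemi _ h1
    intro u hu
    have h1 := hall _ ⟨u, hu⟩ (by rw [hnil]; rfl)
    have h2 : f (e u) = 0 := congrArg Subtype.val h1
    by_cases hu0 : u = 0
    · rw [hu0, map_zero]
    · obtain ⟨r, -, hr, hr0⟩ := eig_fe he hf hh hu0 (ha u hu) (c := 0) (by rw [h2, zero_smul])
      exact hr0 (by exact_mod_cast hr.symm)

end sl

end CF
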